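import Mathlib
import Pool.Agent.H964.LF.Stm

/-!
# Project LF (MP_adb013_pr), statement S_GV: gain at one vertex
-/

set_option autoImplicit false

namespace Pool.Agent.H117.LF

open Pool.Agent.H964.LF

theorem gv_core (S G D E : ℝ) (hS : 0 ≤ S) (hG : 0 ≤ G) (hSG : S + G / 2 ≤ 2)
    (hE : E ≤ G / 2 + D ^ 2 / 16) :
    (S ^ 2 - D ^ 2 / 4) * Real.exp E ≤ (S + G / 2) ^ 2 := by
  have h1 : S ^ 2 - D ^ 2 / 4 ≤ S ^ 2 * Real.exp (-(D ^ 2 / 16)) := by
    have h := Real.add_one_le_exp (-(D ^ 2 / 16))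
    have hS2 : S ^ 2 ≤ 4 := by nlinarith
    have hS0 : 0 ≤ S ^ 2 := sq_nonneg S
    have h2 := mul_le_mul_of_nonneg_left h hS0
    nlinarith [mul_nonneg (sub_nonneg.2 hS2) (sq_nonneg D)]
  have h2 : S ≤ (S + G / 2) * Real.exp (-(G / 4)) := by
    have h := Real.add_one_le_exp (-(G / 4))
    have h0 : 0 ≤ S + G / 2 := by positivity
    have h3 := mul_le_mul_of_nonneg_left h h0
    nlinarith [mul_nonneg (sub_nonneg.2 hSG) hG]
  have h3 : S ^ 2 ≤ (S + G / 2) ^ 2 * Real.exp (-(G / 2)) := by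
    have h4 : S ^ 2 ≤ ((S + G / 2) * Real.exp (-(G / 4))) ^ 2 := pow_le_pow_left₀ hS h2 2
    rw [mul_pow, ← Real.exp_nat_mul] at h4
    have e : ((2 : ℕ) : ℝ) * -(G / 4) = -(G / 2) := by push_cast; ring
    rw [e] at h4
    exact h4
  have hE' : Real.exp E ≤ Real.exp (G / 2 + D ^ 2 / 16) := Real.exp_le_exp.2 hE
  calc (S ^ 2 - D ^ 2 / 4) * Real.exp E
      ≤ (S ^ 2 * Real.exp (-(D ^ 2 / 16))) * Real.exp E :=
        mul_le_mul_of_nonneg_right h1 (Real.exp_pos _).le
    _ ≤ (((S + G / 2) ^ 2 * Real.exp (-(G / 2))) * Real.exp (-(D ^ 2 / 16))) *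
          Real.exp (G / 2 + D ^ 2 / 16) := by
        have h5 := (Real.exp_pos (-(D ^ 2 / 16))).le
        have h6 := (Real.exp_pos E).le
        have h7 := (Real.exp_pos (-(G / 2))).le
        gcongr
    _ = (S + G / 2) ^ 2 := by
        rw [mul_assoc, mul_assoc, ← Real.exp_add, ← Real.exp_add]
        have e : -(G / 2) + (-(D ^ 2 / 16) + (G / 2 + D ^ 2 / 16)) = 0 := by ring
        rw [e, Real.exp_zero, mul_one]

theorem t_GV : S_GV := by
  intro A _ x y a b hab hxa hxb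
  have : Nonempty A := ⟨a⟩
  have bA : ∀ z : A → ℝ, BddAbove (Set.range z) := fun z => (Set.finite_range z).bddAbove
  have bB : ∀ z : A → ℝ, BddBelow (Set.range z) := fun z => (Set.finite_range z).bddBelow
  -- maxima and minima of x
  have hX : (⨆ c, x c) = x a := by
    apply le_antisymm
    · apply ciSup_le
      intro c
      rcases eq_or_ne c a with rfl | hc
      · exact le_rfl
      · have := hxa c hc
        linarith
    · exact le_ciSup (bA x) a
  have hx : (⨅ c, x c) = x b := by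
    apply le_antisymm
    · exact ciInf_le (bB x) b
    · apply le_ciInf
      intro c
      rcases eq_or_ne c b with rfl | hc
      · exact le_rfl
      · have := hxb c hc
        linarith
  obtain ⟨M, hM⟩ : ∃ M, M = ⨆ c, y c := ⟨_, rfl⟩
  obtain ⟨m, hm⟩ : ∃ m, m = ⨅ c, y c := ⟨_, rfl⟩
  have yM : ∀ c, y c ≤ M := fun c => by rw [hM]; exact le_ciSup (bA y) c
  have ym : ∀ c, m ≤ y c := fun c => by rw [hm]; exact ciInf_le (bB y) c
  rw [hX, hx, ← hM, ← hm]
  rcases le_or_gt (2 - x a + x b) 0 with h1 | h1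
  · rw [max_eq_left h1, zero_mul, zero_mul]
    exact sq_nonneg _
  rcases le_or_gt (2 - M + m) 0 with h2 | h2
  · rw [max_eq_left h2, mul_zero, zero_mul]
    exact sq_nonneg _
  rw [max_eq_right h1.le, max_eq_right h2.le]
  have hxab : x b ≤ x a := by
    have := hxa b (Ne.symm hab)
    linarith
  have hal0 : 0 ≤ M - y a := by linarith [yM a]
  have hbe0 : 0 ≤ y b - m := by linarith [ym b]
  have hMm : m ≤ M := le_trans (ym a) (yM a)
  have hal2 : M - y a ≤ 2 := by linarith [ym a]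
  have hbe2 : y b - m ≤ 2 := by linarith [yM b]
  obtain ⟨g1, hg1⟩ : ∃ g1, g1 = min (M - y a) (1 / 16) := ⟨_, rfl⟩
  obtain ⟨g2, hg2⟩ : ∃ g2, g2 = min (y b - m) (1 / 16) := ⟨_, rfl⟩
  have g1a : g1 ≤ M - y a := by rw [hg1]; exact min_le_left _ _
  have g1b : g1 ≤ 1 / 16 := by rw [hg1]; exact min_le_right _ _
  have g2a : g2 ≤ y b - m := by rw [hg2]; exact min_le_left _ _
  have g2b : g2 ≤ 1 / 16 := by rw [hg2]; exact min_le_right _ _
  have g1c : 0 ≤ g1 := by rw [hg1]; exact le_min hal0 (by norm_num)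
  have g2c : 0 ≤ g2 := by rw [hg2]; exact le_min hbe0 (by norm_num)
  have g1d : (M - y a) / 32 ≤ g1 := by
    rw [hg1]
    apply le_min
    · linarith
    · linarith
  have g2d : (y b - m) / 32 ≤ g2 := by
    rw [hg2]
    apply le_min
    · linarith
    · linarith
  -- maximum and minimum of the midpoint
  have hmax : (⨆ c, (x c + y c) / 2) ≤ (x a + M) / 2 - g1 / 2 := by
    apply ciSup_le
    intro c
    rcases eq_or_ne c a with rfl | hc
    · linarith
    · have h3 := hxa c hc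
      have h4 := yM c
      linarith
  have hmin : (x b + m) / 2 + g2 / 2 ≤ ⨅ c, (x c + y c) / 2 := by
    apply le_ciInf
    intro c
    rcases eq_or_ne c b with rfl | hc
    · linarith
    · have h3 := hxb c hc
      have h4 := ym c
      linarith
  have hle : (⨅ c, (x c + y c) / 2) ≤ ⨆ c, (x c + y c) / 2 :=
    le_trans (ciInf_le (bB _) a) (le_ciSup (bA (fun c => (x c + y c) / 2)) a)
  obtain ⟨S, hS⟩ : ∃ S, S = ((2 - x a + x b) + (2 - M + m)) / 2 := ⟨_, rfl⟩
  obtain ⟨D, hD⟩ : ∃ D, D = (2 - x a + x b) - (2 - M + m) := ⟨_, rfl⟩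
  have hS0 : 0 ≤ S := by rw [hS]; linarith
  have hSG : S + (g1 + g2) / 2 ≤ 2 := by
    rw [hS]
    linarith
  have hE : ((x a - y a) - (x b - y b)) ^ 2 / 768 ≤ (g1 + g2) / 2 + D ^ 2 / 16 := by
    have e : (x a - y a) - (x b - y b) = ((M - y a) + (y b - m)) - D := by
      rw [hD]; ring
    rw [e]
    obtain ⟨T, hT⟩ : ∃ T, T = (M - y a) + (y b - m) := ⟨_, rfl⟩
    rw [← hT]
    have hT0 : 0 ≤ T := by rw [hT]; linarith
    have hT4 : T ≤ 4 := by rw [hT]; linarith
    have hTg : T / 32 ≤ g1 + g2 := by rw [hT]; linarith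
    nlinarith [sq_nonneg (T + D), mul_nonneg hT0 (sub_nonneg.2 hT4), sq_nonneg D]
  have key := gv_core S (g1 + g2) D _ hS0 (by linarith) hSG hE
  have e1 : (2 - x a + x b) * (2 - M + m) = S ^ 2 - D ^ 2 / 4 := by
    rw [hS, hD]; ring
  rw [e1]
  refine le_trans key ?_
  have h5 : 0 ≤ S + (g1 + g2) / 2 := by linarith
  apply pow_le_pow_left₀ h5
  refine le_trans ?_ (le_max_right _ _)
  rw [hS]
  linarith

end Pool.Agent.H117.LF
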